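import Pool.Agent.H88.MCR.Stmts3

/-!
# Row BLF of the board `mcr`: blow-up of a drawing
-/

namespace Pool.MCR

theorem blf_thm (hBLO : BLO_S) (hTRR : TRR_S) (hDRR : DRR_S) : BLF_S := by
  classical
  intro L _ R m D0 hD0 V _ τ hτ K hK
  rcases isEmpty_or_nonempty V with hV | ⟨⟨v0⟩⟩
  · obtain ⟨D', hG, hgen, -⟩ := hTRR L R m D0 hD0
    obtain ⟨Dr, -⟩ := hDRR V K R m (fun v => (hV.false v).elim) D'
      (fun v => (hV.false v).elim) (fun v => (hV.false v).elim) (fun v => (hV.false v).elim)
      hG hgen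
    exact ⟨Dr, fun u => (hV.false u).elim, fun u => (hV.false u).elim⟩
  · have hm : 0 < m := lt_of_le_of_lt (Nat.zero_le _) (hτ v0)
    set c := Fintype.card V with hc
    let f : V ≃ Fin c := Fintype.equivFin V
    let e : V → ℕ := fun v => m + (f v : ℕ)
    let σ : ℕ → ℕ := fun x => if x < m then x else
      if h : x - m < c then τ (f.symm ⟨x - m, h⟩) else 0
    have σ1 : ∀ x < m, σ x = x := fun x hx => if_pos hx
    have σ2 : ∀ x, σ x < m := by
      intro x
      simp only [σ]
      split_ifs with h1 h2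
      · exact h1
      · exact hτ _
      · exact hm
    have σ3 : ∀ v, σ (e v) = τ v := by
      intro v
      have h1 : ¬ (e v < m) := by simp only [e]; omega
      have h2 : e v - m = (f v : ℕ) := by simp only [e]; omega
      have h3 : e v - m < c := by rw [h2]; exact (f v).2
      simp only [σ]
      rw [if_neg h1, dif_pos h3]
      congr 1
      have h4 : (⟨e v - m, h3⟩ : Fin c) = f v := Fin.ext h2
      rw [h4, Equiv.symm_apply_apply]
    have e_inj : Function.Injective e := by
      intro u v h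
      have h1 : (f u : ℕ) = (f v : ℕ) := by simp only [e] at h; omega
      exact f.injective (Fin.ext h1)
    have e_lt : ∀ v, e v < m + c := fun v => by
      have := (f v).2
      simp only [e]
      omega
    let R' : ℕ → ℕ → Prop := fun x y => R (σ x) (σ y)
    have toR : ∀ x < m, ∀ y < m, R' x y → R x y := by
      intro x hx y hy h
      simp only [R', σ1 x hx, σ1 y hy] at h
      exact h
    have hD0' : GoodR R' m D0 :=
      { irr := fun x => hD0.irr (σ x)
        sym := fun x y h => hD0.sym _ _ h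
        pos_inj := hD0.pos_inj
        notin := fun x hx y hy z hz h => hD0.notin x hx y hy z hz (toR x hx y hy h)
        nodup := fun x hx y hy h => hD0.nodup x hx y hy (toR x hx y hy h)
        disj := fun x hx y hy z hz t ht h h' =>
          hD0.disj x hx y hy z hz t ht (toR x hx y hy h) (toR z hz t ht h')
        symE := fun x hx y hy h => hD0.symE x hx y hy (toR x hx y hy h)
        symA := fun x hx y hy h => hD0.symA x hx y hy (toR x hx y hy h)
        adj := fun x hx y hy z hz h h' =>
          hD0.adj x hx y hy z hz (toR x hx y hy h) (toR x hx z hz h')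
        self := fun x hx y hy h => hD0.self x hx y hy (toR x hx y hy h)
        two := fun x hx y hy z hz t ht h h' =>
          hD0.two x hx y hy z hz t ht (toR x hx y hy h) (toR z hz t ht h') }
    obtain ⟨L', _, D, hD, P1, P2⟩ := hBLO L R' m D0 σ hD0' σ1 σ2
      (fun x y => by simp only [R', σ1 _ (σ2 _)]) (m + c) (by omega)
    obtain ⟨D', hD', hgen, hEX⟩ := hTRR L' R' (m + c) D hD
    have adjR : ∀ u v, K.Adj u v → R' (e u) (e v) := by
      intro u v h
      simp only [R', σ3]
      exact hK u v h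
    obtain ⟨Dr, hDr⟩ := hDRR V K R' (m + c) e D' e_inj e_lt adjR hD' hgen
    refine ⟨Dr, ?_, ?_⟩
    · intro u v u' v' h1 h2 h3 h4 h5 h6 h7
      refine hDr u v u' v' h1 h2 (hEX _ (e_lt u) _ (e_lt v) _ (e_lt u') _ (e_lt v')
        (adjR _ _ h1) (adjR _ _ h2) ?_)
      refine P1 _ (e_lt u) _ (e_lt v) _ (e_lt u') _ (e_lt v') (adjR _ _ h1) (adjR _ _ h2)
        ?_ ?_ ?_ ?_ ?_
      · rw [σ3, σ3]; exact h3
      · rw [σ3, σ3]; exact h4
      · rw [σ3, σ3]; exact h5
      · rw [σ3, σ3]; exact h6
      · rw [σ3, σ3, σ3, σ3]; exact h7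
    · intro u u' v v' h1 h2 h3 h4 h5 h6 h7
      rcases P2 _ (e_lt u) _ (e_lt u') _ (e_lt v) _ (e_lt v') (fun h => h1 (e_inj h))
        (by rw [σ3, σ3]; exact h2) (fun h => h3 (e_inj h)) (adjR _ _ h4) (adjR _ _ h5)
        with h | h
      · left
        exact hDr u v u' v' h4 h7 (hEX _ (e_lt u) _ (e_lt v) _ (e_lt u') _ (e_lt v')
          (adjR _ _ h4) (adjR _ _ h7) h)
      · right
        exact hDr u v' u' v h5 h6 (hEX _ (e_lt u) _ (e_lt v') _ (e_lt u') _ (e_lt v)
          (adjR _ _ h5) (adjR _ _ h6) h)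

end Pool.MCR
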