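import Pool.Agent.H88.MCR.Stmts3

/-!
# Row BLO of the board `mcr`: blow-up of a diagram
-/

namespace Pool.MCR

/-- reversing one of the two edges -/
theorem blo_rev (hOLD : OLD_S) {L : Type} [LinearOrder L] {R : ℕ → ℕ → Prop} {n : ℕ} {D : Diag L}
    (h : GoodR R n D) {x y : ℕ} (hx : x < n) (hy : y < n) (hR : R x y) (β : List (Arc L)) :
    EX (D.A x y) β ↔ EX (D.A y x) β :=
  ((hOLD L).2.1 (D.A x y) (D.A y x) β (h.symA x hx y hy hR)
    (h.symA y hy x hx (h.sym x y hR))).2.2.2.2.1

theorem blo_comm (hOLD : OLD_S) {L : Type} [LinearOrder L] (α β : List (Arc L)) :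
    EX α β ↔ EX β α := ((hOLD L).2.2 α β).2.2

theorem blo_thm (hCRG : CRG_S) (hCRD : CRD_S) (hRKR : RKR_S) (hOLD : OLD_S) (hCLB : CLB_S) :
    BLO_S := by
  intro L _ R m D0 τ hD0 hτ hτm hRτ N hN
  induction N, hN using Nat.le_induction with
  | base =>
    refine ⟨L, inferInstance, D0, hD0, ?_, ?_⟩
    · intro x hx y hy z hz t ht _ _ _ _ _ _ h
      rwa [hτ x hx, hτ y hy, hτ z hz, hτ t ht] at h
    · intro x hx x' hx' _ _ _ _ hne he
      rw [hτ x hx, hτ x' hx'] at he
      exact absurd he hne
  | succ N hmN ih =>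
    obtain ⟨L', _, D, hD, P1, P2⟩ := ih
    set w := τ N with hwdef
    have hwm : w < m := hτm N
    have hwN : w < N := lt_of_lt_of_le hwm hmN
    have hτw : τ w = w := hτ w hwm
    obtain ⟨r, hr⟩ := hRKR L' R N D w hD hwN
    have tw : ∀ y, R N y ↔ R w y := by
      intro y
      rw [hRτ N y, hRτ w y, hτw]
    have tw' : ∀ y, R y N ↔ R y w := by
      intro y
      rw [hRτ y N, hRτ y w, hτw]
    have ty : ∀ x x' y, τ x = τ x' → R x y → R x' y := by
      intro x x' y h1 h2
      rw [hRτ x' y, ← h1, ← hRτ x y]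
      exact h2
    have hG : GoodR R (N + 1) (clone D N w r) := hCRD L' R N D w r hD hwN hr (fun y _ => tw y)
    obtain ⟨G1, G2⟩ := hCRG L' R N D w r hD hwN hr
    have hB := (hCLB L' N D w r hwN).2.1
    set D' := clone D N w r with hD'
    have hirr := hD.irr
    have hsym := hD.sym
    have rev' := fun {x y : ℕ} (hx : x < N + 1) (hy : y < N + 1) (h : R x y) β =>
      blo_rev hOLD hG hx hy h β
    have revD := fun {x y : ℕ} (hx : x < N) (hy : y < N) (h : R x y) β =>
      blo_rev hOLD hD hx hy h β
    have rev0 := fun {x y : ℕ} (hx : x < m) (hy : y < m) (h : R x y) β =>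
      blo_rev hOLD hD0 hx hy h β
    have old : ∀ x < N, ∀ y < N, ∀ z < N, ∀ t < N,
        EX (D.A x y) (D.A z t) → EX (D'.A x y) (D'.A z t) := by
      intro x hx y hy z hz t ht h
      rw [hB x hx y hy, hB z hz t ht]
      exact ((hOLD L').1 _ _).2.2.2 h
    -- the first property when `x = N`
    have Q1 : ∀ y < N + 1, ∀ z < N + 1, ∀ t < N + 1, R N y → R z t → τ N ≠ τ z → τ N ≠ τ t →
        τ y ≠ τ z → τ y ≠ τ t → EX (D0.A (τ N) (τ y)) (D0.A (τ z) (τ t)) →
        EX (D'.A N y) (D'.A z t) := by
      intro y hy z hz t ht h1 h2 h3 h4 h5 h6 h7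
      have hyN : y ≠ N := fun e => by subst e; exact hirr _ h1
      have hzN : z ≠ N := fun e => by subst e; exact h3 rfl
      have htN : t ≠ N := fun e => by subst e; exact h4 rfl
      have hy' : y < N := by omega
      have hz' : z < N := by omega
      have ht' : t < N := by omega
      refine G1 y hy' ((tw y).1 h1) z hz' t ht' h2 ?_ ?_ ?_ ?_ ?_
      · rintro rfl; exact h3 (hwdef.symm.trans hτw.symm)
      · rintro rfl; exact h5 rfl
      · rintro rfl; exact h4 (hwdef.symm.trans hτw.symm)
      · rintro rfl; exact h6 rfl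
      · refine P1 w hwN y hy' z hz' t ht' ((tw y).1 h1) h2 ?_ ?_ h5 h6 ?_
        · rw [hτw]; exact h3
        · rw [hτw]; exact h4
        · rw [hτw]; exact h7
    -- the first property when `x = N` or `y = N`
    have Q2 : ∀ x < N + 1, ∀ y < N + 1, ∀ z < N + 1, ∀ t < N + 1, (x = N ∨ y = N) → R x y →
        R z t → τ x ≠ τ z → τ x ≠ τ t → τ y ≠ τ z → τ y ≠ τ t →
        EX (D0.A (τ x) (τ y)) (D0.A (τ z) (τ t)) → EX (D'.A x y) (D'.A z t) := by
      intro x hx y hy z hz t ht h0 h1 h2 h3 h4 h5 h6 h7
      rcases h0 with rfl | rfl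
      · exact Q1 y hy z hz t ht h1 h2 h3 h4 h5 h6 h7
      · rw [rev' hx hy h1]
        refine Q1 x hx z hz t ht (hsym _ _ h1) h2 h5 h6 h3 h4 ?_
        rw [rev0 (hτm _) (hτm _) ((hRτ _ _).1 (hsym _ _ h1))]
        exact h7
    -- the second property when `x = N`
    have S1 : ∀ x' < N, ∀ y < N, ∀ y' < N, τ N = τ x' → y ≠ y' → R N y → R N y' →
        EX (D'.A N y) (D'.A x' y') ∨ EX (D'.A N y') (D'.A x' y) := by
      intro x' hx' y hy y' hy' e1 e2 h1 h2
      have k1 : R w y := (tw y).1 h1
      have k2 : R w y' := (tw y').1 h2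
      by_cases hxw : x' = w
      · subst hxw
        exact G2 y hy y' hy' k1 k2 e2
      · have l1 : R x' y := ty N x' y e1 h1
        have l2 : R x' y' := ty N x' y' e1 h2
        rcases P2 w hwN x' hx' y hy y' hy' (Ne.symm hxw) (hτw.trans e1) e2 k1 k2 with h | h
        · left
          refine G1 y hy k1 x' hx' y' hy' l2 hxw ?_ ?_ (Ne.symm e2) h
          · rintro rfl; exact hirr _ l1
          · rintro rfl; exact hirr _ k2
        · right
          refine G1 y' hy' k2 x' hx' y hy l1 hxw ?_ ?_ e2 h
          · rintro rfl; exact hirr _ l2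
          · rintro rfl; exact hirr _ k1
    -- the second property when `y = N`
    have S2 : ∀ x < N, ∀ x' < N, ∀ y' < N, x ≠ x' → τ x = τ x' → R x N → R x y' →
        EX (D'.A x N) (D'.A x' y') ∨ EX (D'.A x y') (D'.A x' N) := by
      intro x hx x' hx' y' hy' e1 e2 h1 h2
      have k1 : R w x := hsym _ _ ((tw' x).1 h1)
      have l0 : R x' N := ty x x' N e2 h1
      have k2 : R w x' := hsym _ _ ((tw' x').1 l0)
      have l2 : R x' y' := ty x x' y' e2 h2
      have hx1 : x < N + 1 := by omega
      have hx1' : x' < N + 1 := by omega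
      have hy1' : y' < N + 1 := by omega
      have hN1 : N < N + 1 := by omega
      by_cases hyw : y' = w
      · subst hyw
        rcases G2 x hx x' hx' k1 k2 e1 with h | h
        · left
          rw [rev' hx1 hN1 h1, blo_comm hOLD, rev' hx1' hy1' l2, blo_comm hOLD]
          exact h
        · right
          rw [blo_comm hOLD, rev' hx1' hN1 l0, blo_comm hOLD, rev' hx1 hy1' h2, blo_comm hOLD]
          exact h
      · rcases P2 x hx x' hx' w hwN y' hy' e1 e2 (Ne.symm hyw) (hsym _ _ k1) h2 with h | h
        · left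
          rw [rev' hx1 hN1 h1]
          rw [revD hx hwN (hsym _ _ k1)] at h
          refine G1 x hx k1 x' hx' y' hy' l2 ?_ (Ne.symm e1) hyw ?_ h
          · rintro rfl; exact hirr _ k2
          · rintro rfl; exact hirr _ h2
        · right
          rw [blo_comm hOLD, rev' hx1' hN1 l0]
          rw [blo_comm hOLD, revD hx' hwN (hsym _ _ k2)] at h
          refine G1 x' hx' k2 x hx y' hy' h2 ?_ e1 hyw ?_ h
          · rintro rfl; exact hirr _ k1
          · rintro rfl; exact hirr _ l2
    refine ⟨L' ×ₗ ℤ, inferInstance, D', hG, ?_, ?_⟩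
    · intro x hx y hy z hz t ht h1 h2 h3 h4 h5 h6 h7
      by_cases c1 : x = N ∨ y = N
      · exact Q2 x hx y hy z hz t ht c1 h1 h2 h3 h4 h5 h6 h7
      · by_cases c2 : z = N ∨ t = N
        · rw [blo_comm hOLD]
          exact Q2 z hz t ht x hx y hy c2 h2 h1 h3.symm h5.symm h4.symm h6.symm
            ((blo_comm hOLD _ _).1 h7)
        · rw [not_or] at c1 c2
          have hx' : x < N := by omega
          have hy' : y < N := by omega
          have hz' : z < N := by omega
          have ht' : t < N := by omega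
          exact old x hx' y hy' z hz' t ht'
            (P1 x hx' y hy' z hz' t ht' h1 h2 h3 h4 h5 h6 h7)
    · intro x hx x' hx' y hy y' hy' e1 e2 e3 h1 h2
      by_cases cx : x = N
      · subst cx
        have n1 : y ≠ x := by rintro rfl; exact hirr _ h1
        have n2 : y' ≠ x := by rintro rfl; exact hirr _ h2
        exact S1 x' (by omega) y (by omega) y' (by omega) e2 e3 h1 h2
      by_cases cx' : x' = N
      · subst cx'
        have l1 : R x' y := ty x x' y e2 h1
        have l2 : R x' y' := ty x x' y' e2 h2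
        have n1 : y ≠ x' := by rintro rfl; exact hirr _ l1
        have n2 : y' ≠ x' := by rintro rfl; exact hirr _ l2
        rcases S1 x (by omega) y (by omega) y' (by omega) e2.symm e3 l1 l2 with h | h
        · right; exact (blo_comm hOLD _ _).1 h
        · left; exact (blo_comm hOLD _ _).1 h
      by_cases cy : y = N
      · subst cy
        exact S2 x (by omega) x' (by omega) y' (by omega) e1 e2 h1 h2
      by_cases cy' : y' = N
      · subst cy'
        exact (S2 x (by omega) x' (by omega) y (by omega) e1 e2 h2 h1).symm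
      rcases P2 x (by omega) x' (by omega) y (by omega) y' (by omega) e1 e2 e3 h1 h2 with h | h
      · left; exact old x (by omega) y (by omega) x' (by omega) y' (by omega) h
      · right; exact old x (by omega) y' (by omega) x' (by omega) y (by omega) h

end Pool.MCR
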